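import Pool.Agent.P.MP_785924_gt.A.Odeex
import Pool.Agent.P.MP_785924_gt.A.Odecont
import Pool.Agent.P.MP_785924_gt.A.Odehol
import Pool.Agent.P.MP_785924_gt.A.Odepar
import Pool.Agent.P.MP_785924_gt.A.Disc
import Pool.Agent.P.MP_785924_gt.A.Nc
import Pool.Agent.P.MP_785924_gt.A.Comb
import Pool.Agent.P.MP_785924_gt.A.Jen
import Pool.Agent.P.MP_785924_gt.A.Wkb
import Pool.Agent.P.MP_785924_gt.A.Wkbg
import Pool.Agent.P.MP_785924_gt.A.Ang
import Pool.Agent.P.MP_785924_gt.A.Asym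
import Pool.Agent.P.MP_785924_gt.A.Alt
import Pool.Agent.P.MP_785924_gt.A.Parab
import Pool.Agent.P.MP_785924_gt.A.Dcont
import Pool.Agent.P.MP_785924_gt.A.Lamj
import Pool.Agent.P.MP_785924_gt.A.Vf
import Pool.Agent.P.MP_785924_gt.A.Fz
import Pool.Agent.P.MP_785924_gt.A.Bode
import Pool.Agent.P.MP_785924_gt.A.Conv
import Pool.Agent.P.MP_785924_gt.A.Len
import Pool.Agent.P.MP_785924_gt.A.Twoarc
import Pool.Agent.P.MP_785924_gt.A.Fv4
import Pool.Agent.P.MP_785924_gt.A.Sturm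
import Pool.Agent.P.MP_785924_gt.A.Scal0
import Pool.Agent.P.MP_785924_gt.A.Half
import Pool.Agent.P.MP_785924_gt.A.Mean
import Pool.Agent.P.MP_785924_gt.A.Axis
import Pool.Agent.P.MP_785924_gt.A.Sq1
import Pool.Agent.P.MP_785924_gt.A.Sq2
import Pool.Agent.P.MP_785924_gt.A.Sq3
import Pool.Agent.P.MP_785924_gt.A.Sq4
import Pool.Agent.P.MP_785924_gt.B.Cut
import Pool.Agent.P.MP_785924_gt.B.Piece
import Pool.Agent.P.MP_785924_gt.B.Small
import Pool.Agent.P.MP_785924_gt.B.Edge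
import Pool.Agent.P.MP_785924_gt.B.Neg1
import Pool.Agent.P.MP_785924_gt.B.Neg2
import Pool.Agent.P.MP_785924_gt.B.Cls
import Pool.Agent.P.MP_785924_gt.B.Nod6
import Pool.Agent.P.MP_785924_gt.B.Lin
import Pool.Agent.P.MP_785924_gt.B.Jacx
import Pool.Agent.P.MP_785924_gt.B.Tpg
import Pool.Agent.P.MP_785924_gt.B.Curve
import Pool.Agent.P.MP_785924_gt.B.Ucp
import Pool.Agent.P.MP_785924_gt.B.Uq4
import Pool.Agent.P.MP_785924_gt.B.Trans
import Pool.Agent.P.MP_785924_gt.B.Jacu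
import Pool.Agent.P.MP_785924_gt.B.Oraa
import Pool.Agent.P.MP_785924_gt.B.Orab
import Pool.Agent.P.MP_785924_gt.B.Flip
import Pool.Agent.P.MP_785924_gt.B.Kill
import Pool.Agent.P.MP_785924_gt.B.Wen0
import Pool.Agent.P.MP_785924_gt.B.Wen1
import Pool.Agent.P.MP_785924_gt.B.Line
import Pool.Agent.P.MP_785924_gt.B.F1
import Pool.Agent.P.MP_785924_gt.B.Eta
import Pool.Agent.P.MP_785924_gt.B.Wen2
import Pool.Agent.P.MP_785924_gt.B.Wen3
import Pool.Agent.P.MP_785924_gt.B.Sig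
import Pool.Agent.P.MP_785924_gt.B.Wens
import Pool.Agent.P.MP_785924_gt.B.Fr1a
import Pool.Agent.P.MP_785924_gt.B.Fr1b
import Pool.Agent.P.MP_785924_gt.B.Fr2a
import Pool.Agent.P.MP_785924_gt.B.Fr2b
import Pool.Agent.P.MP_785924_gt.B.Sc1
import Pool.Agent.P.MP_785924_gt.B.Sc2
import Pool.Agent.P.MP_785924_gt.B.Rot

namespace Pool.Agent.P.MP_785924_gt

theorem all_ODEEX : S_ODEEX := p_ODEEX
theorem all_ODECONT : S_ODECONT := p_ODECONT
theorem all_ODEHOL : S_ODEHOL := p_ODEHOL all_ODEEX all_ODECONT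
theorem all_ODEPAR : S_ODEPAR := p_ODEPAR all_ODEEX all_ODECONT
theorem all_DISC : S_DISC := p_DISC
theorem all_NC : S_NC := p_NC all_DISC
theorem all_COMB : S_COMB := p_COMB
theorem all_JEN : S_JEN := p_JEN
theorem all_WKB : S_WKB := p_WKB
theorem all_WKBG : S_WKBG := p_WKBG all_WKB
theorem all_ANG : S_ANG := p_ANG
theorem all_ASYM : S_ASYM := p_ASYM all_ANG
theorem all_ALT : S_ALT := p_ALT all_ANG
theorem all_PARAB : S_PARAB := p_PARAB all_ANG all_ODEEX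
theorem all_DCONT : S_DCONT := p_DCONT all_ODEEX all_ODECONT
theorem all_LAMJ : S_LAMJ := p_LAMJ all_DCONT all_ASYM all_PARAB
theorem all_VF : S_VF := p_VF all_ODEEX all_ODEHOL
theorem all_FZ : S_FZ := p_FZ all_ODEEX all_VF all_WKBG all_JEN
theorem all_BODE : S_BODE := p_BODE all_ODEEX all_WKBG
theorem all_CONV : S_CONV := p_CONV
theorem all_LEN : S_LEN := p_LEN all_ANG
theorem all_TWOARC : S_TWOARC := p_TWOARC
theorem all_FV4 : S_FV4 := p_FV4 all_TWOARC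
theorem all_STURM : S_STURM := p_STURM
theorem all_SCAL0 : S_SCAL0 := p_SCAL0 all_ODEEX
theorem all_HALF : S_HALF := p_HALF
theorem all_MEAN : S_MEAN := p_MEAN
theorem all_AXIS : S_AXIS := p_AXIS
theorem all_SQ1 : S_SQ1 := p_SQ1
theorem all_SQ2 : S_SQ2 := p_SQ2 all_ODEEX all_SQ1
theorem all_SQ3 : S_SQ3 := p_SQ3 all_ODEEX all_SQ1
theorem all_SQ4 : S_SQ4 := p_SQ4 all_ODEEX all_SQ1
theorem all_CUT : S_CUT := p_CUT
theorem all_PIECE : S_PIECE := p_PIECE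
theorem all_SMALL : S_SMALL := p_SMALL all_PIECE
theorem all_EDGE : S_EDGE := p_EDGE
theorem all_NEG1 : S_NEG1 := p_NEG1 all_CUT all_PIECE all_SMALL all_EDGE
theorem all_NEG2 : S_NEG2 := p_NEG2 all_CUT all_PIECE all_SMALL
theorem all_CLS : S_CLS := p_CLS
theorem all_NOD6 : S_NOD6 := p_NOD6 all_CLS all_NC all_COMB all_NEG1
theorem all_LIN : S_LIN := p_LIN
theorem all_JACX : S_JACX := p_JACX
theorem all_TPG : S_TPG := p_TPG all_CLS all_NC all_NEG2 all_LIN all_JACX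
theorem all_CURVE : S_CURVE := p_CURVE
theorem all_UCP : S_UCP := p_UCP
theorem all_UQ4 : S_UQ4 := p_UQ4
theorem all_TRANS : S_TRANS := p_TRANS all_ODEEX all_ODEPAR
theorem all_JACU : S_JACU := p_JACU
theorem all_ORAA : S_ORAA := p_ORAA all_TRANS all_UQ4 all_SQ1 all_SQ4
theorem all_ORAB : S_ORAB := p_ORAB all_TRANS all_UQ4 all_JACU all_SQ1 all_SQ2 all_SQ3 all_ALT all_NOD6
theorem all_FLIP : S_FLIP := p_FLIP
theorem all_KILL : S_KILL := p_KILL all_UCP all_JACU all_JACX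
theorem all_WEN0 : S_WEN0 := p_WEN0 all_JACU
theorem all_WEN1 : S_WEN1 := p_WEN1 all_WEN0
theorem all_LINE : S_LINE := p_LINE all_WEN0 all_WEN1
theorem all_F1 : S_F1 := p_F1 all_WEN1 all_LINE all_NEG1 all_JACX
theorem all_ETA : S_ETA := p_ETA all_WEN1 all_LINE all_JACX
theorem all_WEN2 : S_WEN2 := p_WEN2 all_WEN0 all_WEN1 all_LINE
theorem all_WEN3 : S_WEN3 := p_WEN3
theorem all_SIG : S_SIG := p_SIG all_JACX all_LIN
theorem all_WENS : S_WENS := p_WENS all_JACX all_SIG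
theorem all_FR1A : S_FR1A := p_FR1A
theorem all_FR1B : S_FR1B := p_FR1B
theorem all_FR2A : S_FR2A := p_FR2A
theorem all_FR2B : S_FR2B := p_FR2B all_FR2A
theorem all_SC1 : S_SC1 := p_SC1 all_FR2A
theorem all_SC2 : S_SC2 := p_SC2
theorem all_ROT : S_ROT := p_ROT all_UQ4

end Pool.Agent.P.MP_785924_gt
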