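import Mathlib

/-!
Definitions for the statement on free boundary minimal annuli in geodesic balls of the
hemisphere and of hyperbolic space.  The ambient space is the quadric `ip c y y = c`, `y 0 > 0`
in four-space (`c = 1`: open hemisphere, `c = -1`: hyperboloid model), the ball is centred at
`(1,0,0,0)`.  The annulus is `[-T,T] × (ℝ / P ℤ)` in conformal coordinates `(t,s)`.
-/

namespace Pool.Agent.P.MP_785924_gt

open scoped ContDiff

noncomputable section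

/-- The two ambient spaces. -/
inductive Model where
  | sphere : Model
  | hyperbolic : Model

/-- Sectional curvature. -/
def Model.curv : Model → ℝ
  | .sphere => 1
  | .hyperbolic => -1

/-- `cos` or `cosh`. -/
def Model.cs : Model → ℝ → ℝ
  | .sphere => Real.cos
  | .hyperbolic => Real.cosh

/-- `sin` or `sinh`. -/
def Model.sn : Model → ℝ → ℝ
  | .sphere => Real.sin
  | .hyperbolic => Real.sinh

/-- Admissible radii of the geodesic ball. -/
def Model.Radius : Model → ℝ → Prop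
  | .sphere => fun R => 0 < R ∧ R < Real.pi / 2
  | .hyperbolic => fun R => 0 < R

/-- Euclidean (`c = 1`) or Lorentzian (`c = -1`) inner product of four-space. -/
def ip (c : ℝ) (a b : Fin 4 → ℝ) : ℝ := c * (a 0 * b 0) + a 1 * b 1 + a 2 * b 2 + a 3 * b 3

/-- Derivative in the first coordinate `t`. -/
def dT (f : ℝ × ℝ → ℝ) (p : ℝ × ℝ) : ℝ := fderiv ℝ f p (1, 0)

/-- Derivative in the second (periodic) coordinate `s`. -/
def dS (f : ℝ × ℝ → ℝ) (p : ℝ × ℝ) : ℝ := fderiv ℝ f p (0, 1)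

/-- The closed strip `[-T,T] × ℝ`. -/
def strip (T : ℝ) : Set (ℝ × ℝ) := {p | -T ≤ p.1 ∧ p.1 ≤ T}

/-- Periodicity in `s`. -/
def Per (P : ℝ) (f : ℝ × ℝ → ℝ) : Prop := ∀ t s, f (t, s + P) = f (t, s)

/-- Smooth functions on the cylinder `ℝ × (ℝ / P ℤ)`. -/
def Sm (P : ℝ) (f : ℝ × ℝ → ℝ) : Prop := ContDiff ℝ ∞ f ∧ Per P f

/-- The vector with components `x a p`. -/
def vec (x : Fin 4 → ℝ × ℝ → ℝ) (p : ℝ × ℝ) : Fin 4 → ℝ := fun a => x a p

/-- Componentwise `t`-derivative. -/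
def vT (x : Fin 4 → ℝ × ℝ → ℝ) : Fin 4 → ℝ × ℝ → ℝ := fun a => dT (x a)

/-- Componentwise `s`-derivative. -/
def vS (x : Fin 4 → ℝ × ℝ → ℝ) : Fin 4 → ℝ × ℝ → ℝ := fun a => dS (x a)

/-- `x` is a smooth conformal minimal immersion of `[-T,T] × (ℝ / P ℤ)` into the closed geodesic
ball of radius `R`, with unit normal `ν`, sending the boundary into the boundary sphere and
meeting it orthogonally (`ν` is tangent to the sphere `y 0 = cs R`). -/
structure FBAnnulus (M : Model) (R T P : ℝ) (x ν : Fin 4 → ℝ × ℝ → ℝ) : Prop where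
  smx : ∀ a, Sm P (x a)
  smν : ∀ a, Sm P (ν a)
  onM : ∀ p ∈ strip T, ip M.curv (vec x p) (vec x p) = M.curv ∧ 0 < x 0 p
  inBall : ∀ p ∈ strip T, 0 ≤ M.curv * (x 0 p - M.cs R)
  conf : ∀ p ∈ strip T, 0 < ip M.curv (vec (vT x) p) (vec (vT x) p) ∧
    ip M.curv (vec (vS x) p) (vec (vS x) p) = ip M.curv (vec (vT x) p) (vec (vT x) p) ∧
    ip M.curv (vec (vT x) p) (vec (vS x) p) = 0
  normal : ∀ p ∈ strip T, ip M.curv (vec ν p) (vec ν p) = 1 ∧ ip M.curv (vec ν p) (vec x p) = 0 ∧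
    ip M.curv (vec ν p) (vec (vT x) p) = 0 ∧ ip M.curv (vec ν p) (vec (vS x) p) = 0
  minimal : ∀ p ∈ strip T,
    ip M.curv (vec (vT (vT x)) p) (vec ν p) + ip M.curv (vec (vS (vS x)) p) (vec ν p) = 0
  bdry : ∀ s, x 0 (T, s) = M.cs R ∧ x 0 (-T, s) = M.cs R
  orth : ∀ s, ν 0 (T, s) = 0 ∧ ν 0 (-T, s) = 0

/-- Conformal factor: the induced metric is `gE (dt² + ds²)`. -/
def gE (M : Model) (x : Fin 4 → ℝ × ℝ → ℝ) (p : ℝ × ℝ) : ℝ :=
  ip M.curv (vec (vT x) p) (vec (vT x) p)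

/-- Squared norm of the second fundamental form. -/
def normA2 (M : Model) (x ν : Fin 4 → ℝ × ℝ → ℝ) (p : ℝ × ℝ) : ℝ :=
  (ip M.curv (vec (vT (vT x)) p) (vec ν p) ^ 2 + 2 * ip M.curv (vec (vS (vT x)) p) (vec ν p) ^ 2
    + ip M.curv (vec (vS (vS x)) p) (vec ν p) ^ 2) / gE M x p ^ 2

/-- Second variation of area,
`∫ (|∇u|² - (|A|² + 2κ) u²) dA - ∫ h(ν,ν) u² ds` with `h(ν,ν) = cs R / sn R`. -/
def secondVar (M : Model) (R T P : ℝ) (x ν : Fin 4 → ℝ × ℝ → ℝ) (u : ℝ × ℝ → ℝ) : ℝ :=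
  (∫ t in (-T)..T, ∫ s in (0 : ℝ)..P,
    ((dT u (t, s) ^ 2 + dS u (t, s) ^ 2) / gE M x (t, s)
      - (normA2 M x ν (t, s) + 2 * M.curv) * u (t, s) ^ 2) * gE M x (t, s))
  - ∫ s in (0 : ℝ)..P, M.cs R / M.sn R *
      (u (T, s) ^ 2 * √(gE M x (T, s)) + u (-T, s) ^ 2 * √(gE M x (-T, s)))

/-- The second variation is negative definite on some `n`-dimensional space of smooth
functions. -/
def IndexGE (M : Model) (R T P : ℝ) (x ν : Fin 4 → ℝ × ℝ → ℝ) (n : ℕ) : Prop :=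
  ∃ v : Fin n → ℝ × ℝ → ℝ, (∀ i, Sm P (v i)) ∧
    ∀ a : Fin n → ℝ, a ≠ 0 → secondVar M R T P x ν (fun p => ∑ i, a i * v i p) < 0

/-- The last three coordinates. -/
def sp (x : Fin 4 → ℝ × ℝ → ℝ) (p : ℝ × ℝ) : Fin 3 → ℝ := fun i => x i.succ p

/-- Rotation of three-space by the angle `φ` about the unit vector `b` (formula of Rodrigues). -/
def rot (b : Fin 3 → ℝ) (φ : ℝ) (y : Fin 3 → ℝ) : Fin 3 → ℝ :=
  Real.cos φ • y + Real.sin φ • crossProduct b y + ((1 - Real.cos φ) * (b ⬝ᵥ y)) • b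

/-- Translation in `s` acts on the immersion as rotation with constant angular speed about a
fixed axis through the centre of the ball. -/
def Rotational (T : ℝ) (x : Fin 4 → ℝ × ℝ → ℝ) : Prop :=
  ∃ (b : Fin 3 → ℝ) (om : ℝ), b ⬝ᵥ b = 1 ∧ om ≠ 0 ∧ ∀ p ∈ strip T, ∀ τ : ℝ,
    x 0 (p.1, p.2 + τ) = x 0 p ∧ sp x (p.1, p.2 + τ) = rot b (om * τ) (sp x p)

end

end Pool.Agent.P.MP_785924_gt
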