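import Pool.Agent.P.MP_785924_gt.A.IfaceA
import Pool.Agent.P.MP_785924_gt.B.IfaceB

/-! Assembly of the proof from the steps. -/

namespace Pool.Agent.P.MP_785924_gt

open scoped ContDiff
open Set Filter Topology

namespace MainAux

variable {c ρ C0 T P : ℝ} {w : ℝ × ℝ → ℝ} {x e1 e2 ν : Fin 4 → ℝ × ℝ → ℝ}

theorem lev_fl (σ : ℝ) (f : ℝ × ℝ → ℝ) : lev (-σ) (fl f) = lev σ f := by
  funext s; simp [lev, fl]

theorem lev_fl' (σ : ℝ) (f : ℝ × ℝ → ℝ) : lev σ (fl f) = lev (-σ) f := by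
  funext s; simp [lev, fl]

theorem oracle (hA : S_ORAA) (hB : S_ORAB) (hF : S_FLIP) (h : Intr c ρ C0 T P w)
    (hn : ¬ NegQ c ρ C0 T P w) : Oracle ρ P (lev (-T) w) (lev T w) := by
  intro κ hκ h1 h2 hs
  rcases hs with ⟨φ1, φ2, hs, hp⟩ | ⟨φ1, φ2, hs, hp⟩
  · by_contra hc
    exact hn (hB c ρ C0 T P κ w φ1 φ2 h hκ h1 h2 hs hp hc)
  · obtain ⟨hi, hq⟩ := hF c ρ C0 T P w h
    refine hA c ρ C0 T P κ w h hκ ?_
    by_contra hc
    refine hn (hq (hB c ρ C0 T P κ (fl w) φ1 φ2 hi hκ ?_ ?_ ?_ hp ?_))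
    · rw [lev_fl]; exact h2
    · rw [lev_fl']; exact h1
    · rw [lev_fl]; exact hs
    · rw [lev_fl]; exact hc

theorem kappa0 : ∃ κ0 : ℂ, κ0 ^ 4 = -1 := by
  refine ⟨Complex.exp ((Real.pi / 4 : ℝ) * Complex.I), ?_⟩
  rw [← Complex.exp_nat_mul, ← Complex.exp_pi_mul_I]
  congr 1
  push_cast
  ring

/-- Four arcs, each longer than a quarter of a great circle, contradict the length bound. -/
theorem sturm4 (hS : S_STURM) {v : ℝ → ℝ} {A B : ℝ} (hρ : 0 < ρ) (hP : 0 < P) (hv : Sm1 P v)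
    (hA : A < 0) (hB : B ≤ 0) (hO : BOde ρ A B v) (hZ : Z4 P (deriv v))
    (hL : (∫ θ in (0 : ℝ)..P, Real.exp (v θ) / ρ) ≤ 2 * Real.pi) : False := by
  obtain ⟨z, hz, hzP, h0, hne⟩ := hZ
  have hc : Continuous fun θ => Real.exp (v θ) / ρ := by
    have := hv.cont
    fun_prop
  have ii : ∀ a b, IntervalIntegrable (fun θ => Real.exp (v θ) / ρ) MeasureTheory.volume a b :=
    fun a b => hc.intervalIntegrable a b
  have arc : ∀ i : Fin 4, Real.pi / 2 < ∫ θ in z i.castSucc..z i.succ, Real.exp (v θ) / ρ :=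
    fun i => hS ρ A B _ _ v hρ hv.1 hA hB hO (hz Fin.castSucc_lt_succ) (h0 _) (h0 _) (hne i)
  have a0 := arc 0
  have a1 := arc 1
  have a2 := arc 2
  have a3 := arc 3
  have per : Function.Periodic (fun θ => Real.exp (v θ) / ρ) P := fun θ => by
    simp only [hv.2 θ]
  have e0 : (∫ θ in z 0..z 0 + P, Real.exp (v θ) / ρ) = ∫ θ in (0 : ℝ)..P, Real.exp (v θ) / ρ := by
    have := per.intervalIntegral_add_eq (z 0) 0
    simpa using this
  have e1 := intervalIntegral.integral_add_adjacent_intervals (ii (z 0) (z 1)) (ii (z 1) (z 2))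
  have e2 := intervalIntegral.integral_add_adjacent_intervals (ii (z 0) (z 2)) (ii (z 2) (z 3))
  have e3 := intervalIntegral.integral_add_adjacent_intervals (ii (z 0) (z 3)) (ii (z 3) (z 4))
  have e4 := intervalIntegral.integral_add_adjacent_intervals (ii (z 0) (z 4)) (ii (z 4) (z 0 + P))
  have a4 : 0 ≤ ∫ θ in z 4..z 0 + P, Real.exp (v θ) / ρ :=
    intervalIntegral.integral_nonneg hzP fun θ _ => by positivity
  change Real.pi / 2 < ∫ θ in z 0..z 1, _ at a0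
  change Real.pi / 2 < ∫ θ in z 1..z 2, _ at a1
  change Real.pi / 2 < ∫ θ in z 2..z 3, _ at a2
  change Real.pi / 2 < ∫ θ in z 3..z 4, _ at a3
  linarith

end MainAux

open MainAux

/-- The boundary equation on the bottom circle, and with it the rotation axis. -/
theorem frame_kill (hORAA : S_ORAA) (hORAB : S_ORAB) (hFLIP : S_FLIP) (hTPG : S_TPG)
    (hCURVE : S_CURVE) (hCONV : S_CONV) (hLEN : S_LEN) (hLAMJ : S_LAMJ) (hSCAL0 : S_SCAL0)
    (hFZ : S_FZ) (hBODE : S_BODE) (hAXIS : S_AXIS) (hKILL : S_KILL)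
    {c ρ C0 T P : ℝ} {w : ℝ × ℝ → ℝ} {x e1 e2 ν : Fin 4 → ℝ × ℝ → ℝ}
    (h : Frame c ρ C0 T P w x e1 e2 ν) (hn : ¬ NegQ c ρ C0 T P w) :
    ∃ b, Kill T w e1 e2 b ∧ ∀ s, deriv (lev (-T) w) s = c * ρ * cmp b (lev3 (-T) e2) s := by
  have hρ := h.intr.hρ
  have hP := h.intr.hP
  have cB := hCURVE c ρ C0 T P (-T) w x e1 e2 ν h (Or.inr rfl)
  have tB := hTPG c ρ C0 T P (-T) w x e1 e2 ν h hn (Or.inr rfl)
  obtain ⟨cc, hcc⟩ := hCONV ρ P _ _ _ _ cB tB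
  obtain ⟨l1, l2⟩ := hLEN ρ P _ _ _ _ cc cB tB hcc
  have hc := cB.smw.cont
  have hsum : (∫ θ in (0 : ℝ)..P, (Real.exp (lev (-T) w θ) / ρ + 1 / Real.exp (lev (-T) w θ)))
      < 6 * Real.pi := by
    rw [intervalIntegral.integral_add]
    · have := Real.pi_pos
      linarith
    · exact (by fun_prop : Continuous fun θ => Real.exp (lev (-T) w θ) / ρ).intervalIntegrable _ _
    · refine Continuous.intervalIntegrable ?_ _ _
      exact continuous_const.div (by fun_prop) fun θ => (Real.exp_pos _).ne'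
  obtain ⟨κ, C, hκ⟩ := hLAMJ ρ P _ _ hρ hP cB.smw (h.intr.sm.lev T) hsum
    (oracle hORAA hORAB hFLIP h.intr hn)
  obtain ⟨κ0, h0⟩ := kappa0
  have hU := hFZ ρ P C _ κ κ0 hρ hP cB.smw h0 (hSCAL0 ρ P _ _ _ _ κ0 cB h0) hκ
  have hO := hBODE ρ P _ hρ hP cB.smw hU
  have hσ : c * ρ ≠ 0 := by
    rcases h.intr.hc with e | e <;> rw [e] <;> simpa using hρ.ne'
  obtain ⟨b, hb⟩ := (hAXIS ρ P (c * ρ) _ _ _ _ cB hσ).1 hO
  exact ⟨b, hKILL c ρ C0 T P w x e1 e2 ν b h hb, hb⟩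

/-- The conformal factor does not depend on `s`. -/
theorem frame_flat (hORAA : S_ORAA) (hORAB : S_ORAB) (hFLIP : S_FLIP) (hTPG : S_TPG)
    (hCURVE : S_CURVE) (hCONV : S_CONV) (hLEN : S_LEN) (hLAMJ : S_LAMJ) (hSCAL0 : S_SCAL0)
    (hFZ : S_FZ) (hBODE : S_BODE) (hAXIS : S_AXIS) (hKILL : S_KILL) (hUCP : S_UCP)
    (hJACX : S_JACX) (hWEN1 : S_WEN1) (hFV4 : S_FV4) (hF1 : S_F1) (hETA : S_ETA)
    (hWEN2 : S_WEN2) (hWEN3 : S_WEN3) (hSTURM : S_STURM) (hHALF : S_HALF) (hMEAN : S_MEAN)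
    (hWENS : S_WENS)
    {c ρ C0 T P : ℝ} {w : ℝ × ℝ → ℝ} {x e1 e2 ν : Fin 4 → ℝ × ℝ → ℝ}
    (h : Frame c ρ C0 T P w x e1 e2 ν) (hn : ¬ NegQ c ρ C0 T P w) :
    ∀ p ∈ strip T, dS w p = 0 := by
  have hρ := h.intr.hρ
  have hP := h.intr.hP
  have hT := h.intr.hT
  have hw := h.intr.sm
  obtain ⟨b, hK, hb⟩ := frame_kill hORAA hORAB hFLIP hTPG hCURVE hCONV hLEN hLAMJ hSCAL0 hFZ hBODE
    hAXIS hKILL h hn
  obtain ⟨-, -, hJ⟩ := hJACX c ρ C0 T P w x e1 e2 ν h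
  by_cases gT : Good w T
  swap
  · refine hUCP T P T (WJ c w) (dS w) hT hP (sm_WJ hw c) hJ.sm hJ.eq (Or.inl rfl) fun s => ?_
    have : dS w (T, s) = 0 := by
      by_contra hs
      exact gT ⟨s, hs⟩
    exact ⟨this, by rw [hJ.top, this, mul_zero]⟩
  by_cases gB : Good w (-T)
  swap
  · refine hUCP T P (-T) (WJ c w) (dS w) hT hP (sm_WJ hw c) hJ.sm hJ.eq (Or.inr rfl) fun s => ?_
    have : dS w (-T, s) = 0 := by
      by_contra hs
      exact gB ⟨s, hs⟩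
    refine ⟨this, ?_⟩
    have e := hJ.bot s
    rw [this, mul_zero] at e
    linarith
  have side : ∀ σ, (σ = T ∨ σ = -T) → Good w σ →
      Curve ρ P (lev σ w) (lev3 σ x) (lev3 σ ν) (lev3 σ e2) ∧ TP P (lev3 σ x) ∧
      Z4 P (deriv (lev σ w)) ∧ (∫ θ in (0 : ℝ)..P, Real.exp (lev σ w θ) / ρ) ≤ 2 * Real.pi := by
    intro σ hσ g
    have cB := hCURVE c ρ C0 T P σ w x e1 e2 ν h hσ
    have tB := hTPG c ρ C0 T P σ w x e1 e2 ν h hn hσ
    obtain ⟨cc, hcc⟩ := hCONV ρ P _ _ _ _ cB tB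
    refine ⟨cB, tB, hFV4 ρ P _ _ _ _ cc cB tB (fun θ => (hcc θ).1) ?_,
      (hLEN ρ P _ _ _ _ cc cB tB hcc).1⟩
    intro θ hθ
    have hm : σ ∈ Icc (-T) T := by
      rcases hσ with e | e <;> rw [e] <;> constructor <;> linarith
    rw [deriv_lev hw.1] at hθ ⊢
    rw [deriv_lev (cd_dS hw.1)]
    exact (hWEN1 c ρ C0 T P w x e1 e2 ν b h hK σ hm).2 g θ hθ
  obtain ⟨cT, tT, zT, lT⟩ := side T (Or.inl rfl) gT
  obtain ⟨cB, tB, zB, lB⟩ := side (-T) (Or.inr rfl) gB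
  rcases h.intr.hc with hc | hc
  · subst hc
    have hbT : ∀ θ, deriv (lev T w) θ = -ρ * cmp b (lev3 T e2) θ := by
      intro θ
      rw [deriv_lev hw.1]
      have e := hK (T, θ) (top_mem hT θ)
      obtain ⟨-, -, a2, a1, -⟩ := h.alg.top θ
      rw [a1, a2] at e
      simp only [lev, e, cmp, cmp4, lev3]
      simp
    have hOT := (hAXIS ρ P (-ρ) _ _ _ _ cT (by simpa using hρ.ne')).2 ⟨b, hbT⟩
    have hOB := (hAXIS ρ P (1 * ρ) _ _ _ _ cB (by simpa using hρ.ne')).2 ⟨b, hb⟩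
    obtain ⟨A, B, hOT⟩ := hOT
    obtain ⟨A', B', hOB⟩ := hOB
    obtain ⟨Q, q0, q1, q2⟩ := hHALF ρ P A B _ hρ hP cT.smw hOT zT
    obtain ⟨Q', q0', q1', q2'⟩ := hHALF ρ P A' B' _ hρ hP cB.smw hOB zB
    have mT := hMEAN ρ P Q (-ρ) _ _ _ _ b cT tT q0 q1 q2 hbT
      (by rw [deriv_lev hw.1]; exact gT)
    have mB := hMEAN ρ P Q' (1 * ρ) _ _ _ _ b cB tB q0' q1' q2' hb
      (by rw [deriv_lev hw.1]; exact gB)
    exact hWENS ρ C0 T P w x e1 e2 ν h hn mT mB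
  · subst hc
    exfalso
    have zT' := zT
    have zB' := zB
    rw [deriv_lev hw.1] at zT' zB'
    have hG := hF1 _ ρ C0 T P w x e1 e2 ν b h hn hK zT' zB'
    have hE := hETA ρ C0 T P w x e1 e2 ν b h hK hG zB'
    obtain ⟨n, hh, α, β, n', h', α', β', Wa, Wb, W3, k1, k2, k3, k4, k5, k6, k7, oT, oB⟩ :=
      hWEN2 ρ C0 T P w x e1 e2 ν b h hK hG hE
    obtain ⟨b1, b2, b3⟩ := hWEN3 T n hh α β n' h' α' β' Wa Wb W3 hT k1 k2 k3 k4 k5 k6 k7
    by_cases h3 : 0 < W3 T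
    · exact sturm4 hSTURM hρ hP cT.smw (by have := div_pos h3 hρ; linarith) b1 oT zT lT
    · exact sturm4 hSTURM hρ hP cB.smw (div_neg_of_neg_of_pos (by linarith) hρ) b2 oB zB lB

/-- From the annulus to the normalized frame and back. -/
theorem main_of (hFR1A : S_FR1A) (hFR1B : S_FR1B) (hFR2B : S_FR2B) (hSC1 : S_SC1) (hSC2 : S_SC2)
    (hROT : S_ROT)
    (hflat : ∀ {c ρ C0 T P : ℝ} {w : ℝ × ℝ → ℝ} {x e1 e2 ν : Fin 4 → ℝ × ℝ → ℝ},
      Frame c ρ C0 T P w x e1 e2 ν → ¬ NegQ c ρ C0 T P w → ∀ p ∈ strip T, dS w p = 0)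
    (M : Model) (R T P : ℝ) (x ν : Fin 4 → ℝ × ℝ → ℝ) (hR : M.Radius R) (hT : 0 < T) (hP : 0 < P)
    (h : FBAnnulus M R T P x ν) (hi : ∀ n, IndexGE M R T P x ν n → n ≤ 4) : Rotational T x := by
  obtain ⟨hc, hρ, hC, hCρ, w, e1, e2, hw, hA', hx⟩ := hFR1A M R T P x ν hR hT hP h
  have pf := hFR1B _ _ _ T P w x e1 e2 ν hc hρ hC hCρ hT hP hw hA' (fun p hp => (hx p hp).2)
    h.minimal
  obtain ⟨k, hk, hAB⟩ := hFR2B _ _ _ T P w _ _ x e1 e2 ν pf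
  have hr : 0 < √|k| := Real.sqrt_pos.2 (abs_pos.2 hk)
  have hr2 : √|k| ^ 2 = |k| := Real.sq_sqrt (abs_nonneg k)
  set r := √|k| with hrdef
  obtain ⟨σ, hσ, hσk⟩ : ∃ σ : ℝ, (σ = 1 ∨ σ = -1) ∧ σ * k = r ^ 2 := by
    rcases lt_or_gt_of_ne hk with hk | hk
    · exact ⟨-1, Or.inr rfl, by rw [hr2, abs_of_neg hk]; ring⟩
    · exact ⟨1, Or.inl rfl, by rw [hr2, abs_of_pos hk]; ring⟩
  have fr := hSC1 _ _ _ T P k r σ w _ _ x e1 e2 ν pf hAB hr hσ hσk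
  have hn : ¬ NegQ M.curv (M.sn R) (M.cs R) (r * T) (r * P) (fun p => sc r w p - Real.log r) := by
    intro hq
    have := hi 5 (hSC2 M R T P r w x ν hT hP hr hw (fun p hp => ⟨(hx p hp).1, ?_⟩) hq)
    · omega
    · have a1 : hA M.curv x ν p = k := (hAB p hp).1
      have a2 : hB M.curv x ν p = 0 := (hAB p hp).2
      have a3 := h.minimal p hp
      unfold hA at a1
      unfold hB at a2
      have a4 : ip M.curv (vec (vS (vS x)) p) (vec ν p) = -k := by linarith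
      have a5 : r ^ 4 = k ^ 2 := by
        rw [show r ^ 4 = (r ^ 2) ^ 2 by ring, hr2, sq_abs]
      unfold normA2
      rw [a1, a2, a4, (hx p hp).1, a5]
      ring
  obtain ⟨b, om, hb, hom, hrot⟩ := hROT _ _ _ _ _ _ _ _ _ _ fr (hflat fr hn)
  refine ⟨b, om * r, hb, mul_ne_zero hom hr.ne', fun p hp τ => ?_⟩
  have hp' : ((r * p.1, r * p.2) : ℝ × ℝ) ∈ strip (r * T) := by
    obtain ⟨p1, p2⟩ := hp
    constructor
    · show -(r * T) ≤ r * p.1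
      nlinarith
    · show r * p.1 ≤ r * T
      nlinarith
  obtain ⟨g1, g2⟩ := hrot _ hp' (r * τ)
  have q1 : r * p.1 / r = p.1 := by field_simp
  have q2 : r * p.2 / r = p.2 := by field_simp
  have q3 : (r * p.2 + r * τ) / r = p.2 + τ := by field_simp
  constructor
  · simpa only [sc, q1, q2, q3] using g1
  · have s1 : sp (fun a => sc r (x a)) (r * p.1, r * p.2 + r * τ) = sp x (p.1, p.2 + τ) := by
      funext i; simp only [sp, sc, q1, q3]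
    have s2 : sp (fun a => sc r (x a)) (r * p.1, r * p.2) = sp x p := by
      funext i; simp only [sp, sc, q1, q2]
    rw [s1, s2] at g2
    rw [g2, mul_assoc]

end Pool.Agent.P.MP_785924_gt
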